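import Mathlib
import Pool.Agent.K7.H13.AlmFinal

/-!
# In every dimension, `d ^ 2` unit vectors almost all of whose pairs have exactly the SIC angle
-/

set_option autoImplicit false

namespace Pool.Agent.Results.MP_d0f9e0_co.AlmostAllPairsExact

/-- the two vectors of `ℂ^d` have the angle of a maximal ETF -/
def SICAngle {d : ℕ} (u v : EuclideanSpace ℂ (Fin d)) : Prop :=
  ‖inner ℂ u v‖ = 1 / Real.sqrt ((d : ℝ) + 1)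

theorem result : ∃ (δ : ℝ) (d₀ : ℕ), 0 < δ ∧ ∀ d Y : ℕ, d₀ ≤ d →
    (d : ℝ) ^ (1 - δ) ≤ Y → 10 * Y ≤ d →
    ∃ (x : Fin (d ^ 2) → EuclideanSpace ℂ (Fin d)) (S : Finset (Fin (d ^ 2))),
      d ^ 2 ≤ S.card + 4 * Y * d ∧ (∀ i, ‖x i‖ = 1) ∧
      (∀ i j, i ≠ j → ‖inner ℂ (x i) (x j)‖ ≤ 4 * Y / d) ∧
      ∀ i ∈ S, ({j | j ∈ S ∧ j ≠ i ∧ ¬ SICAngle (x i) (x j)}.ncard : ℝ) ≤
        2 * (d : ℝ) ^ 2 / Y := by
  obtain ⟨δ, d₀, hδ, h⟩ := Pool.Agent.K7.H13.Alm.final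
  refine ⟨δ, d₀, hδ, fun d Y hd hY hY2 => ?_⟩
  obtain ⟨x, S, hS, hx1, hx2, hx3⟩ := h d Y hd hY hY2
  refine ⟨x, S, hS, hx1, hx2, fun i hi => ?_⟩
  refine le_trans (le_of_eq ?_) (hx3 i hi)
  have : {j | j ∈ S ∧ j ≠ i ∧ ¬ SICAngle (x i) (x j)} =
      ((({j ∈ S | j ≠ i ∧ ‖inner ℂ (x i) (x j)‖ ≠ 1 / Real.sqrt ((d : ℝ) + 1)} :
        Finset (Fin (d ^ 2)))) : Set (Fin (d ^ 2))) := by
    ext j
    simp [SICAngle]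
  rw [this, Set.ncard_coe_finset]

end Pool.Agent.Results.MP_d0f9e0_co.AlmostAllPairsExact
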