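import Mathlib
import Pool.Agent.K7.H13.DefSpan

/-!
# The space of infinitesimal deformations of a maximal equiangular tight frame

The velocities of the paths of maximal ETFs through a given one form a real vector space whose
dimension exceeds that of the trivial ones (unitary transformations and changes of phase) by at
most `2 (d - 1) (d - 2)`.
-/

set_option autoImplicit false

namespace Pool.Agent.Results.MP_d0f9e0_co.DeformationSpace

open Finset Module Topology Pool.Agent.K7.H13.Iso Pool.Agent.K7.H13.Def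

/-- families of `d ^ 2` vectors of `ℂ^d` -/
abbrev Family (d : ℕ) : Type := Fin (d ^ 2) → EuclideanSpace ℂ (Fin d)

/-- the inner product of `ℂ^d` -/
noncomputable def ip {d : ℕ} (u v : EuclideanSpace ℂ (Fin d)) : ℂ := inner ℂ u v

/-- a maximal equiangular tight frame of `ℂ^d` -/
def IsMaximalETF (d : ℕ) (x : Family d) : Prop :=
  (∀ i, ‖x i‖ = 1) ∧ ∀ i j, i ≠ j → ‖ip (x i) (x j)‖ = 1 / Real.sqrt ((d : ℝ) + 1)

/-- the velocities `v` preserve the norms and the angles of `x` to first order -/
def PreservesAngles {d : ℕ} (x v : Family d) : Prop :=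
  (∀ i, (ip (x i) (v i)).re = 0) ∧ ∀ i j, i ≠ j →
    (ip (x j) (x i) * (ip (v i) (x j) + ip (x i) (v j))).re = 0

/-- a skew-Hermitian operator -/
def IsSkew {d : ℕ} (A : EuclideanSpace ℂ (Fin d) →ₗ[ℂ] EuclideanSpace ℂ (Fin d)) : Prop :=
  ∀ y z, ip (A y) z = - ip y (A z)

/-- the velocities `v` come from a path of unitary transformations and changes of phase -/
def IsMotion {d : ℕ} (x v : Family d) : Prop :=
  ∃ (A : EuclideanSpace ℂ (Fin d) →ₗ[ℂ] EuclideanSpace ℂ (Fin d)) (s : Fin (d ^ 2) → ℝ),
    IsSkew A ∧ ∀ i, v i = A (x i) + ((s i : ℂ) * Complex.I) • x i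

/-- `v` is the velocity at `x` of a path of maximal ETFs -/
def IsVelocity {d : ℕ} (x v : Family d) : Prop :=
  ∃ c : ℝ → Family d, c 0 = x ∧ (∀ᶠ t in 𝓝 (0 : ℝ), IsMaximalETF d (c t)) ∧ HasDerivAt c v 0

theorem pa_zero {d : ℕ} (x : Fin (d ^ 2) → EuclideanSpace ℂ (Fin d)) :
    PreservesAngles x 0 := by
  constructor <;> simp [ip]

theorem pa_add {d : ℕ} {x v w : Fin (d ^ 2) → EuclideanSpace ℂ (Fin d)}
    (h : PreservesAngles x v) (h' : PreservesAngles x w) : PreservesAngles x (v + w) := by
  obtain ⟨hv, hv2⟩ := h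
  obtain ⟨hw, hw2⟩ := h'
  simp only [ip] at hv hv2 hw hw2
  refine ⟨fun i => ?_, fun i j hij => ?_⟩ <;> simp only [ip]
  · rw [Pi.add_apply, inner_add_right, Complex.add_re, hv, hw, add_zero]
  · have h1 := hv2 i j hij
    have h2 := hw2 i j hij
    rw [Pi.add_apply, Pi.add_apply, inner_add_right, inner_add_left]
    have h3 : inner ℂ (x j) (x i) * (inner ℂ (v i) (x j) + inner ℂ (w i) (x j) +
        (inner ℂ (x i) (v j) + inner ℂ (x i) (w j))) =
        inner ℂ (x j) (x i) * (inner ℂ (v i) (x j) + inner ℂ (x i) (v j)) +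
        inner ℂ (x j) (x i) * (inner ℂ (w i) (x j) + inner ℂ (x i) (w j)) := by ring
    rw [h3, Complex.add_re, h1, h2, add_zero]

theorem pa_smul {d : ℕ} {x v : Fin (d ^ 2) → EuclideanSpace ℂ (Fin d)} (c : ℝ)
    (h : PreservesAngles x v) : PreservesAngles x (c • v) := by
  obtain ⟨hv, hv2⟩ := h
  simp only [ip] at hv hv2
  refine ⟨fun i => ?_, fun i j hij => ?_⟩ <;> simp only [ip]
  · rw [Pi.smul_apply, real_smul_E, inner_smul_right, Complex.re_ofReal_mul, hv, mul_zero]
  · have h1 := hv2 i j hij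
    rw [Pi.smul_apply, Pi.smul_apply, real_smul_E, real_smul_E, inner_smul_right,
      inner_smul_left, Complex.conj_ofReal]
    have h3 : inner ℂ (x j) (x i) * ((c : ℂ) * inner ℂ (v i) (x j) +
        (c : ℂ) * inner ℂ (x i) (v j)) =
        (c : ℂ) * (inner ℂ (x j) (x i) * (inner ℂ (v i) (x j) + inner ℂ (x i) (v j))) := by ring
    rw [h3, Complex.re_ofReal_mul, h1, mul_zero]

theorem mo_zero {d : ℕ} (x : Fin (d ^ 2) → EuclideanSpace ℂ (Fin d)) :
    IsMotion x 0 := ⟨0, 0, fun y z => by simp [ip], by simp⟩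

theorem mo_add {d : ℕ} {x v w : Fin (d ^ 2) → EuclideanSpace ℂ (Fin d)}
    (h : IsMotion x v) (h' : IsMotion x w) : IsMotion x (v + w) := by
  obtain ⟨A, s, hA, hv⟩ := h
  obtain ⟨B, r, hB, hw⟩ := h'
  simp only [IsSkew, ip] at hA hB
  refine ⟨A + B, s + r, fun y z => ?_, fun i => ?_⟩
  · simp only [ip]
    rw [LinearMap.add_apply, LinearMap.add_apply, inner_add_left, inner_add_right, hA, hB]; ring
  · rw [Pi.add_apply, hv, hw, LinearMap.add_apply, Pi.add_apply]
    push_cast
    module

theorem mo_smul {d : ℕ} {x v : Fin (d ^ 2) → EuclideanSpace ℂ (Fin d)} (c : ℝ)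
    (h : IsMotion x v) : IsMotion x (c • v) := by
  obtain ⟨A, s, hA, hv⟩ := h
  simp only [IsSkew, ip] at hA
  refine ⟨(c : ℂ) • A, c • s, fun y z => ?_, fun i => ?_⟩
  · simp only [ip]
    rw [LinearMap.smul_apply, LinearMap.smul_apply, inner_smul_left, inner_smul_right, hA,
      Complex.conj_ofReal]; ring
  · rw [Pi.smul_apply, hv, LinearMap.smul_apply, Pi.smul_apply, real_smul_E, smul_eq_mul]
    push_cast
    module

/-- the families of velocities which preserve the norms and the angles of `x` to first order -/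
def FirstOrder {d : ℕ} (x : Fin (d ^ 2) → EuclideanSpace ℂ (Fin d)) :
    Submodule ℝ (Fin (d ^ 2) → EuclideanSpace ℂ (Fin d)) where
  carrier := {v | PreservesAngles x v}
  zero_mem' := pa_zero x
  add_mem' := pa_add
  smul_mem' := fun c _ => pa_smul c

/-- the velocities of the paths obtained by unitary transformations and changes of phase -/
def Trivial {d : ℕ} (x : Fin (d ^ 2) → EuclideanSpace ℂ (Fin d)) :
    Submodule ℝ (Fin (d ^ 2) → EuclideanSpace ℂ (Fin d)) where
  carrier := {v | IsMotion x v}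
  zero_mem' := mo_zero x
  add_mem' := mo_add
  smul_mem' := fun c _ => mo_smul c

theorem trivial_le {d : ℕ} {x : Fin (d ^ 2) → EuclideanSpace ℂ (Fin d)} (hx : IsSic x) :
    Trivial x ≤ FirstOrder x := by
  rintro v ⟨A, s, hA, hv⟩
  simp only [IsSkew, ip] at hA
  refine ⟨fun i => ?_, fun i j hij => ?_⟩ <;> simp only [ip]
  · rw [hv, inner_add_right, inner_smul_right, inner_self_one (hx.nrm i), skew_im hA (x i)]
    simp
  · rw [hv, hv, inner_add_left, inner_add_right, inner_smul_left, inner_smul_right, hA]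
    have h1 := ang_c hx hij
    have h2 : inner ℂ (x j) (x i) * (-inner ℂ (x i) (A (x j)) +
        (starRingEnd ℂ) ((s i : ℂ) * Complex.I) * inner ℂ (x i) (x j) +
        (inner ℂ (x i) (A (x j)) + (s j : ℂ) * Complex.I * inner ℂ (x i) (x j))) =
        (((s j - s i) / ((d : ℝ) + 1) : ℝ) : ℂ) * Complex.I := by
      rw [map_mul, Complex.conj_ofReal, Complex.conj_I]
      push_cast
      linear_combination (((s j : ℂ) - s i) * Complex.I) * h1
    rw [h2, Complex.re_ofReal_mul, Complex.I_re, mul_zero]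

/-- splitting a velocity into its gauge-fixed part and its phases -/
noncomputable def split {d : ℕ} {x : Fin (d ^ 2) → EuclideanSpace ℂ (Fin d)} (hx : IsSic x) :
    FirstOrder x →ₗ[ℝ] (DD x) × (Fin (d ^ 2) → ℝ) where
  toFun v := (⟨WithLp.toLp 2 fun i => v.1 i - inner ℂ (x i) (v.1 i) • x i, by
      have horth : ∀ i, inner ℂ (v.1 i - inner ℂ (x i) (v.1 i) • x i) (x i) = (0 : ℂ) := by
        intro i
        rw [inner_sub_left, inner_smul_left, inner_conj_symm, inner_self_one (hx.nrm i), mul_one,
          sub_self]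
      refine ⟨horth, fun i j => ?_⟩
      by_cases hij : i = j
      · rw [hij, mm_self, neg_zero]
      · have h1 := v.2.2 i j hij
        have hi := v.2.1 i
        have hj := v.2.1 j
        simp only [ip] at h1 hi hj
        have h2 := ang_c hx hij
        change (inner ℂ (v.1 i - inner ℂ (x i) (v.1 i) • x i) (tu x i j)).re =
          -(inner ℂ (v.1 j - inner ℂ (x j) (v.1 j) • x j) (tu x j i)).re
        rw [inner_tu (horth i), inner_tu (horth j), inner_sub_left, inner_sub_left,
          inner_smul_left, inner_smul_left]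
        have h3 : ∀ a : Fin (d ^ 2), (inner ℂ (x a) (v.1 a)).re = 0 →
            (starRingEnd ℂ) (inner ℂ (x a) (v.1 a)) = -inner ℂ (x a) (v.1 a) := by
          intro a ha
          apply Complex.ext
          · rw [Complex.conj_re, Complex.neg_re, ha, neg_zero]
          · rw [Complex.conj_im, Complex.neg_im]
        rw [h3 i hi, h3 j hj]
        have h4 : (inner ℂ (v.1 i) (x j) - -inner ℂ (x i) (v.1 i) * inner ℂ (x i) (x j)) *
            inner ℂ (x j) (x i) = inner ℂ (x j) (x i) * inner ℂ (v.1 i) (x j) +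
            ((1 / ((d : ℝ) + 1) : ℝ) : ℂ) * inner ℂ (x i) (v.1 i) := by
          push_cast
          linear_combination (inner ℂ (x i) (v.1 i)) * h2
        have h5 : (inner ℂ (v.1 j) (x i) - -inner ℂ (x j) (v.1 j) * inner ℂ (x j) (x i)) *
            inner ℂ (x i) (x j) = (starRingEnd ℂ) (inner ℂ (x j) (x i) * inner ℂ (x i) (v.1 j)) +
            ((1 / ((d : ℝ) + 1) : ℝ) : ℂ) * inner ℂ (x j) (v.1 j) := by
          rw [map_mul, inner_conj_symm, inner_conj_symm]
          push_cast
          linear_combination (inner ℂ (x j) (v.1 j)) * h2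
        rw [h4, h5, Complex.add_re, Complex.add_re, Complex.re_ofReal_mul, Complex.re_ofReal_mul,
          hi, hj, Complex.conj_re, mul_zero, add_zero, add_zero]
        rw [mul_add, Complex.add_re] at h1
        linarith⟩, fun i => (inner ℂ (x i) (v.1 i)).im)
  map_add' := by
    intro v w
    apply Prod.ext
    · apply Subtype.ext
      apply PiLp.ext
      intro i
      change (v.1 + w.1) i - inner ℂ (x i) ((v.1 + w.1) i) • x i =
        (v.1 i - inner ℂ (x i) (v.1 i) • x i) + (w.1 i - inner ℂ (x i) (w.1 i) • x i)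
      rw [Pi.add_apply, inner_add_right]
      module
    · funext i
      change (inner ℂ (x i) ((v.1 + w.1) i)).im =
        (inner ℂ (x i) (v.1 i)).im + (inner ℂ (x i) (w.1 i)).im
      rw [Pi.add_apply, inner_add_right, Complex.add_im]
  map_smul' := by
    intro c v
    apply Prod.ext
    · apply Subtype.ext
      apply PiLp.ext
      intro i
      change (c • v.1) i - inner ℂ (x i) ((c • v.1) i) • x i =
        c • (v.1 i - inner ℂ (x i) (v.1 i) • x i)
      rw [Pi.smul_apply, real_smul_E, real_smul_E, inner_smul_right]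
      module
    · funext i
      change (inner ℂ (x i) ((c • v.1) i)).im = c • (inner ℂ (x i) (v.1 i)).im
      rw [Pi.smul_apply, real_smul_E, inner_smul_right, Complex.im_ofReal_mul, smul_eq_mul]

theorem split_injective {d : ℕ} {x : Fin (d ^ 2) → EuclideanSpace ℂ (Fin d)} (hx : IsSic x) :
    Function.Injective (split hx) := by
  rw [← LinearMap.ker_eq_bot, LinearMap.ker_eq_bot']
  intro v hv
  have h1 : ∀ i, v.1 i - inner ℂ (x i) (v.1 i) • x i = 0 := by
    intro i
    have h2 := congrArg (fun p => (p.1 : PiLp 2 (fun _ => EuclideanSpace ℂ (Fin d))) i) hv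
    exact h2
  have h3 : ∀ i, (inner ℂ (x i) (v.1 i)).im = 0 := by
    intro i
    have h2 := congrArg (fun p => p.2 i) hv
    exact h2
  apply Subtype.ext
  funext i
  have h4 : inner ℂ (x i) (v.1 i) = (0 : ℂ) := Complex.ext (v.2.1 i) (h3 i)
  have h5 := h1 i
  rw [h4, zero_smul, sub_zero] at h5
  exact h5

/-- the trivial velocities in terms of real combinations of test vectors and phases -/
noncomputable def triv {d : ℕ} (x : Fin (d ^ 2) → EuclideanSpace ℂ (Fin d)) :
    (LinearMap.range (tvL x)) × (Fin (d ^ 2) → ℝ) →ₗ[ℝ]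
      (Fin (d ^ 2) → EuclideanSpace ℂ (Fin d)) where
  toFun p i := Complex.I • (p.1 : PiLp 2 (fun _ => EuclideanSpace ℂ (Fin d))) i +
    ((p.2 i : ℂ) * Complex.I) • x i
  map_add' := by
    intro p q
    funext i
    change Complex.I • ((p.1 : PiLp 2 (fun _ => EuclideanSpace ℂ (Fin d))) i +
      (q.1 : PiLp 2 (fun _ => EuclideanSpace ℂ (Fin d))) i) +
      (((p.2 i + q.2 i : ℝ) : ℂ) * Complex.I) • x i = _
    rw [Pi.add_apply]
    push_cast
    module
  map_smul' := by
    intro c p
    funext i
    change Complex.I • (c • (p.1 : PiLp 2 (fun _ => EuclideanSpace ℂ (Fin d))) i) +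
      (((c * p.2 i : ℝ) : ℂ) * Complex.I) • x i =
      c • (Complex.I • (p.1 : PiLp 2 (fun _ => EuclideanSpace ℂ (Fin d))) i +
        ((p.2 i : ℂ) * Complex.I) • x i)
    rw [real_smul_E, real_smul_E]
    push_cast
    module

theorem triv_injective {d : ℕ} {x : Fin (d ^ 2) → EuclideanSpace ℂ (Fin d)} (hx : IsSic x) :
    Function.Injective (triv x) := by
  rw [← LinearMap.ker_eq_bot, LinearMap.ker_eq_bot']
  rintro ⟨⟨f, t, rfl⟩, s⟩ hv
  have h1 : ∀ i, Complex.I • tv x t i + ((s i : ℂ) * Complex.I) • x i = 0 :=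
    fun i => congrFun hv i
  have h2 : ∀ i, s i = 0 := by
    intro i
    have h3 := congrArg (fun z => inner ℂ (x i) z) (h1 i)
    simp only [inner_add_right, inner_smul_right, inner_zero_right,
      inner_self_one (hx.nrm i)] at h3
    rw [← inner_conj_symm, tv_orth hx, map_zero, mul_zero, zero_add, mul_one] at h3
    rcases mul_eq_zero.1 h3 with h4 | h4
    · exact_mod_cast h4
    · exact absurd h4 Complex.I_ne_zero
  have h3 : ∀ i, tv x t i = 0 := by
    intro i
    have h4 := h1 i
    rw [h2 i, Complex.ofReal_zero, zero_mul, zero_smul, add_zero] at h4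
    exact (smul_eq_zero.1 h4).resolve_left Complex.I_ne_zero
  apply Prod.ext
  · apply Subtype.ext
    apply PiLp.ext
    intro i
    exact h3 i
  · funext i
    exact h2 i

theorem triv_range {d : ℕ} {x : Fin (d ^ 2) → EuclideanSpace ℂ (Fin d)} (hx : IsSic x) :
    LinearMap.range (triv x) = Trivial x := by
  apply le_antisymm
  · rintro v ⟨⟨⟨f, t, rfl⟩, s⟩, rfl⟩
    -- the operator `i ∑ t_k |x_k⟩⟨x_k|`
    let A : EuclideanSpace ℂ (Fin d) →ₗ[ℂ] EuclideanSpace ℂ (Fin d) :=
      { toFun := fun y => ∑ k, (Complex.I * (t k : ℂ) * inner ℂ (x k) y) • x k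
        map_add' := by
          intro y z
          rw [← Finset.sum_add_distrib]
          apply Finset.sum_congr rfl
          intro k _
          rw [inner_add_right]
          module
        map_smul' := by
          intro c y
          rw [RingHom.id_apply, Finset.smul_sum]
          apply Finset.sum_congr rfl
          intro k _
          rw [inner_smul_right]
          module }
    have hAa : ∀ y, A y = ∑ k, (Complex.I * (t k : ℂ) * inner ℂ (x k) y) • x k := fun y => rfl
    refine ⟨A, fun i => s i - (t i + 1 / ((d : ℝ) + 1) * ∑ k ∈ univ.erase i, t k), ?_, ?_⟩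
    · intro y z
      simp only [ip]
      rw [hAa, hAa, sum_inner, inner_sum, ← Finset.sum_neg_distrib]
      apply Finset.sum_congr rfl
      intro k _
      rw [inner_smul_left, inner_smul_right, map_mul, map_mul, Complex.conj_I,
        Complex.conj_ofReal, inner_conj_symm]
      ring
    · intro i
      change Complex.I • tv x t i + ((s i : ℂ) * Complex.I) • x i = _
      have h1 : tv x t i = ∑ k ∈ univ.erase i, (((t k : ℂ) * inner ℂ (x k) (x i)) • x k -
          ((1 / ((d : ℂ) + 1)) * (t k : ℂ)) • x i) := by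
        rw [tv, ← Finset.sum_erase_add univ _ (Finset.mem_univ i), tu_self, smul_zero, add_zero]
        apply Finset.sum_congr rfl
        intro k hk
        rw [tu_ne (Finset.mem_erase.1 hk).1]
        module
      have h2 : A (x i) = ∑ k ∈ univ.erase i,
          (Complex.I * (t k : ℂ) * inner ℂ (x k) (x i)) • x k + (Complex.I * (t i : ℂ)) • x i := by
        rw [hAa, ← Finset.sum_erase_add univ _ (Finset.mem_univ i), inner_self_one (hx.nrm i),
          mul_one]
      rw [h1, h2, Finset.sum_sub_distrib, ← Finset.sum_smul, ← Finset.mul_sum, smul_sub,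
        Finset.smul_sum]
      have h3 : ∑ k ∈ univ.erase i, Complex.I • ((t k : ℂ) * inner ℂ (x k) (x i)) • x k =
          ∑ k ∈ univ.erase i, (Complex.I * (t k : ℂ) * inner ℂ (x k) (x i)) • x k := by
        apply Finset.sum_congr rfl
        intro k _
        module
      rw [h3]
      push_cast
      module
  · rintro v ⟨A, s, hA, hv⟩
    obtain ⟨t, r, htr⟩ := skew_apply hx hA
    refine ⟨(⟨tvL x t, t, rfl⟩, fun i => r i + s i), ?_⟩
    funext i
    change Complex.I • tv x t i + (((r i + s i : ℝ) : ℂ) * Complex.I) • x i = v i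
    rw [hv, htr]
    push_cast
    module

/-- velocities of differentiable paths of maximal frames -/
theorem velocity {d : ℕ} {x : Fin (d ^ 2) → EuclideanSpace ℂ (Fin d)}
    {c : ℝ → Fin (d ^ 2) → EuclideanSpace ℂ (Fin d)} (hc0 : c 0 = x)
    (hc : ∀ᶠ t in 𝓝 (0 : ℝ), IsMaximalETF d (c t))
    {v : Fin (d ^ 2) → EuclideanSpace ℂ (Fin d)} (hv : HasDerivAt c v 0) : v ∈ FirstOrder x := by
  have hvi : ∀ i, HasDerivAt (fun t => c t i) (v i) 0 := fun i => (hasDerivAt_pi.1 hv) i
  have hz : ∀ i j, HasDerivAt (fun t => (inner ℂ (c t i) (c t j) : ℂ))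
      (inner ℂ (x i) (v j) + inner ℂ (v i) (x j)) 0 := by
    intro i j
    have := (hvi i).inner ℂ (hvi j)
    rw [hc0] at this
    exact this
  have hconst : ∀ i j (K : ℝ), (∀ᶠ t in 𝓝 (0 : ℝ), ‖(inner ℂ (c t i) (c t j) : ℂ)‖ = K) →
      (inner ℂ (x j) (x i) * (inner ℂ (v i) (x j) + inner ℂ (x i) (v j)) : ℂ).re = 0 := by
    intro i j K hK
    have h1 : HasDerivAt (fun t => (inner ℂ (c t i) (c t j) : ℂ) * inner ℂ (c t j) (c t i))
        ((inner ℂ (x i) (v j) + inner ℂ (v i) (x j)) * inner ℂ (c 0 j) (c 0 i) +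
          inner ℂ (c 0 i) (c 0 j) * (inner ℂ (x j) (v i) + inner ℂ (v j) (x i))) 0 :=
      (hz i j).mul (hz j i)
    have h2 : HasDerivAt (fun t => (inner ℂ (c t i) (c t j) : ℂ) * inner ℂ (c t j) (c t i)) 0 0 := by
      have h3 : (fun t => (inner ℂ (c t i) (c t j) : ℂ) * inner ℂ (c t j) (c t i)) =ᶠ[𝓝 0]
          fun _ => ((K ^ 2 : ℝ) : ℂ) := by
        filter_upwards [hK] with t ht
        rw [cmul, ht]
      exact (hasDerivAt_const (0 : ℝ) ((K ^ 2 : ℝ) : ℂ)).congr_of_eventuallyEq h3
    have h3 := h1.unique h2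
    rw [hc0] at h3
    have h4 : (inner ℂ (x i) (v j) + inner ℂ (v i) (x j)) * inner ℂ (x j) (x i) +
          inner ℂ (x i) (x j) * (inner ℂ (x j) (v i) + inner ℂ (v j) (x i)) =
        (inner ℂ (x j) (x i) * (inner ℂ (v i) (x j) + inner ℂ (x i) (v j))) +
        (starRingEnd ℂ) (inner ℂ (x j) (x i) * (inner ℂ (v i) (x j) + inner ℂ (x i) (v j))) := by
      rw [map_mul, map_add, inner_conj_symm, inner_conj_symm, inner_conj_symm]
      ring
    rw [h4, Complex.add_conj] at h3
    have h5 : 2 * (inner ℂ (x j) (x i) * (inner ℂ (v i) (x j) + inner ℂ (x i) (v j)) : ℂ).re =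
        0 := by exact_mod_cast h3
    linarith
  refine ⟨fun i => ?_, fun i j hij => ?_⟩ <;> simp only [ip]
  · have h1 := hconst i i 1 (by
      filter_upwards [hc] with t ht
      rw [inner_self_one (ht.1 i), norm_one])
    have hx1 : ‖x i‖ = 1 := by
      have := hc.self_of_nhds
      rw [hc0] at this
      exact this.1 i
    rw [inner_self_one hx1, one_mul, Complex.add_re, ← inner_conj_symm, Complex.conj_re] at h1
    linarith
  · exact hconst i j (1 / Real.sqrt ((d : ℝ) + 1)) (by
      filter_upwards [hc] with t ht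
      exact ht.2 i j hij)

/-- the dimension of the space of infinitesimal deformations -/
noncomputable def dimFirst {d : ℕ} (x : Family d) : ℕ := finrank ℝ (FirstOrder x)

/-- the dimension of the space of trivial infinitesimal deformations -/
noncomputable def dimTrivial {d : ℕ} (x : Family d) : ℕ := finrank ℝ (Trivial x)

theorem result (d : ℕ) (hd : 2 ≤ d) (x : Family d) (hx : IsMaximalETF d x) :
    (∀ v, IsVelocity x v → PreservesAngles x v) ∧ (∀ v, IsMotion x v → PreservesAngles x v) ∧
    dimTrivial x + 1 = 2 * d ^ 2 ∧ dimFirst x ≤ dimTrivial x + 2 * (d - 1) * (d - 2) := by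
  have hsic : IsSic x := ⟨by omega, by simp, hx.1, hx.2⟩
  have hT : finrank ℝ (Trivial x) + 1 = 2 * d ^ 2 := by
    rw [← triv_range hsic, LinearMap.finrank_range_of_inj (triv_injective hsic),
      Module.finrank_prod, Module.finrank_fintype_fun_eq_card, Fintype.card_fin]
    have := finrank_FF hsic
    omega
  refine ⟨fun v hv => ?_, fun v hv => trivial_le hsic hv, hT, ?_⟩
  · obtain ⟨c, hc0, hc, hv⟩ := hv
    exact velocity hc0 hc hv
  unfold dimFirst dimTrivial
  have h1 := LinearMap.finrank_le_finrank_of_injective (split_injective hsic)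
  rw [Module.finrank_prod, Module.finrank_fintype_fun_eq_card, Fintype.card_fin] at h1
  have h2 := finrank_DD hsic hd
  obtain ⟨e, rfl⟩ : ∃ e, d = e + 2 := ⟨d - 2, by omega⟩
  have h3 : e + 2 - 1 = e + 1 := by omega
  have h4 : e + 2 - 2 = e := by omega
  rw [h3] at h2
  rw [h3, h4]
  nlinarith

end Pool.Agent.Results.MP_d0f9e0_co.DeformationSpace
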