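import Mathlib
import Pool.Agent.K7.H13.ExactBase

/-!
# `2 s ^ 3` lines of `ℂ^d`, `d + 1 = (s + 1) ^ 2`, with exactly the angle of a maximal ETF
-/

set_option autoImplicit false

namespace Pool.Agent.Results.MP_d0f9e0_co.ExactAngleSystems

/-- the vectors `x i` of `ℂ^d` have norm one and pairwise the angle of a maximal ETF -/
def HasSICAngles {d N : ℕ} (x : Fin N → EuclideanSpace ℂ (Fin d)) : Prop :=
  (∀ i, ‖x i‖ = 1) ∧ ∀ i j, i ≠ j → ‖inner ℂ (x i) (x j)‖ = 1 / Real.sqrt ((d : ℝ) + 1)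

theorem result (s : ℕ) (hs : IsPrimePow s) (hodd : Odd s) (d : ℕ) (hd : d + 1 = (s + 1) ^ 2) :
    ∃ x : Fin (2 * s ^ 3) → EuclideanSpace ℂ (Fin d), HasSICAngles x := by
  obtain ⟨p, k, hp, hk, rfl⟩ := hs
  have hp' : p.Prime := hp.nat_prime
  have hp2 : p ≠ 2 := by
    rintro rfl
    rw [Nat.odd_pow_iff hk.ne'] at hodd
    exact absurd hodd (by decide)
  obtain rfl : d = (p ^ k) ^ 2 + 2 * p ^ k := by
    have : (p ^ k + 1) ^ 2 = (p ^ k) ^ 2 + 2 * p ^ k + 1 := by ring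
    omega
  obtain ⟨x, h1, h2⟩ := Pool.Agent.K7.H13.Exact.main p k hp' hp2 hk.ne'
  exact ⟨x, h1, h2⟩

end Pool.Agent.Results.MP_d0f9e0_co.ExactAngleSystems
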