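import Mathlib
import Pool.Agent.K7.H13.IsoMain

/-!
# Isolation of the lines of a maximal equiangular tight frame

A unit vector outside the lines of a maximal ETF of `ℂ^d` makes the SIC angle with fewer than
`d ^ 2 - 1 - (d ^ (3 / 2) - 4 d)` of its members; two maximal ETFs with different line sets share
fewer lines than that.
-/

set_option autoImplicit false

namespace Pool.Agent.Results.MP_d0f9e0_co.IsolationGap

open Finset Pool.Agent.K7.H13.Iso

/-- a maximal equiangular tight frame of `ℂ^d` -/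
def IsMaximalETF (d : ℕ) (x : Fin (d ^ 2) → EuclideanSpace ℂ (Fin d)) : Prop :=
  (∀ i, ‖x i‖ = 1) ∧ ∀ i j, i ≠ j → ‖inner ℂ (x i) (x j)‖ = 1 / Real.sqrt ((d : ℝ) + 1)

/-- the larger of `d ^ (3 / 2) / 8` and `d ^ (3 / 2) - 4 d` -/
noncomputable def gap (d : ℕ) : ℝ :=
  max ((d : ℝ) * Real.sqrt d / 8) ((d : ℝ) * Real.sqrt d - 4 * d)

theorem ov_lt_one {d : ℕ} {x : Fin (d ^ 2) → EuclideanSpace ℂ (Fin d)} (hx : ∀ i, ‖x i‖ = 1)
    {w : EuclideanSpace ℂ (Fin d)} (hw : ‖w‖ = 1) (h : ∀ (i) (c : ℂ), w ≠ c • x i)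
    (i : Fin (d ^ 2)) : ov x w i < 1 := by
  set z := inner ℂ (x i) w with hz
  set v := z • x i with hv
  set u := w - v with hu
  have hwuv : u + v = w := by rw [hu]; abel
  have hx1 : inner ℂ (x i) (x i) = (1 : ℂ) := inner_self_one (hx i)
  have hxu : inner ℂ (x i) u = (0 : ℂ) := by
    rw [hu, inner_sub_right, hv, inner_smul_right, hx1, mul_one, ← hz, sub_self]
  have huv : inner ℂ u v = (0 : ℂ) := by
    rw [hv, inner_smul_right, ← inner_conj_symm, hxu, map_zero, mul_zero]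
  have h1 : ‖w‖ * ‖w‖ = ‖u‖ * ‖u‖ + ‖v‖ * ‖v‖ := by
    rw [← hwuv]
    exact norm_add_sq_eq_norm_sq_add_norm_sq_of_inner_eq_zero u v huv
  have hvn : ‖v‖ = ‖z‖ := by rw [hv, norm_smul, hx i, mul_one]
  have hu0 : u ≠ 0 := by
    intro h2
    apply h i z
    rw [← hv, ← hwuv, h2, zero_add]
  have hun : 0 < ‖u‖ := norm_pos_iff.2 hu0
  rw [hw, hvn] at h1
  have h2 : ov x w i = ‖z‖ ^ 2 := rfl
  rw [h2]
  nlinarith

theorem angle_iff {d : ℕ} (hd : 0 < d) {x : Fin (d ^ 2) → EuclideanSpace ℂ (Fin d)}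
    (w : EuclideanSpace ℂ (Fin d)) (i : Fin (d ^ 2)) :
    ‖inner ℂ (x i) w‖ = 1 / Real.sqrt ((d : ℝ) + 1) ↔ qp x w i = 0 := by
  have hd' : (0 : ℝ) < d := by exact_mod_cast hd
  have h1 : qp x w i = 0 ↔ ‖inner ℂ (x i) w‖ ^ 2 = (1 / Real.sqrt ((d : ℝ) + 1)) ^ 2 := by
    rw [div_pow, Real.sq_sqrt (by positivity), one_pow, qp, ov]
    rw [div_eq_zero_iff]
    constructor
    · rintro (h | h)
      · field_simp
        linarith
      · exact absurd h hd'.ne'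
    · intro h
      left
      rw [h]
      field_simp
      ring
  rw [h1]
  constructor
  · intro h; rw [h]
  · intro h
    exact (pow_left_inj₀ (norm_nonneg _) (by positivity) (by norm_num)).1 h

theorem result (d : ℕ) (hd : 2 ≤ d) (x : Fin (d ^ 2) → EuclideanSpace ℂ (Fin d))
    (hx : IsMaximalETF d x) :
    (∀ w : EuclideanSpace ℂ (Fin d), ‖w‖ = 1 → (∀ (i : Fin (d ^ 2)) (c : ℂ), w ≠ c • x i) →
      ({i | ‖inner ℂ (x i) w‖ = 1 / Real.sqrt ((d : ℝ) + 1)}.ncard : ℝ) <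
        (d : ℝ) ^ 2 - 1 - gap d) ∧
    ∀ y : Fin (d ^ 2) → EuclideanSpace ℂ (Fin d), IsMaximalETF d y →
      (∃ j, ∀ (i : Fin (d ^ 2)) (c : ℂ), y j ≠ c • x i) →
      ({i | ∃ (j : Fin (d ^ 2)) (c : ℂ), y j = c • x i}.ncard : ℝ) <
        (d : ℝ) ^ 2 - 1 - gap d := by
  classical
  have hsic : IsSic x := ⟨by omega, by simp, hx.1, hx.2⟩
  have key : ∀ w : EuclideanSpace ℂ (Fin d), ‖w‖ = 1 →
      (∀ (i : Fin (d ^ 2)) (c : ℂ), w ≠ c • x i) →
      ({i | ‖inner ℂ (x i) w‖ = 1 / Real.sqrt ((d : ℝ) + 1)}.ncard : ℝ) <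
        (d : ℝ) ^ 2 - 1 - gap d := by
    intro w hw hne
    obtain ⟨h1, h2⟩ := iso_bound hsic hd hw (ov_lt_one hx.1 hw hne)
    have h3 : {i | ‖inner ℂ (x i) w‖ = 1 / Real.sqrt ((d : ℝ) + 1)} =
        (((bad x w)ᶜ : Finset (Fin (d ^ 2))) : Set (Fin (d ^ 2))) := by
      ext i
      rw [Set.mem_setOf_eq, angle_iff (by omega), Finset.mem_coe, Finset.mem_compl, mem_bad,
        not_not]
    rw [h3, Set.ncard_coe_finset, Finset.card_compl, Fintype.card_fin, Nat.cast_sub]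
    · have h4 : gap d < (bad x w).card - 1 := by
        rw [gap, max_lt_iff]
        exact ⟨h1, h2⟩
      push_cast
      linarith
    · have := Finset.card_le_univ (bad x w)
      rwa [Fintype.card_fin] at this
  refine ⟨key, ?_⟩
  intro y hy ⟨j, hj⟩
  refine lt_of_le_of_lt ?_ (key (y j) (hy.1 j) hj)
  have hsub : {i | ∃ (j : Fin (d ^ 2)) (c : ℂ), y j = c • x i} ⊆
      {i | ‖inner ℂ (x i) (y j)‖ = 1 / Real.sqrt ((d : ℝ) + 1)} := by
    rintro i ⟨k, c, hc⟩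
    rw [Set.mem_setOf_eq]
    have hkj : k ≠ j := by
      rintro rfl
      exact hj i c hc
    have h1 := hy.2 k j hkj
    have h2 : ‖c‖ = 1 := by
      have h3 := hy.1 k
      rw [hc, norm_smul, hx.1, mul_one] at h3
      exact h3
    rw [hc, inner_smul_left, norm_mul, RCLike.norm_conj, h2, one_mul] at h1
    exact h1
  exact_mod_cast Set.ncard_le_ncard hsub (Set.toFinite _)

end Pool.Agent.Results.MP_d0f9e0_co.IsolationGap
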